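import Mathlib
import Pool.Agent.H138.Net.Defs
import Pool.Agent.H138.Net.Main

/-!
# MP_51574c_co: every non-local 4-multinet is the Hesse multinet

Let the classes `A 0, …, A 3` of lines of the complex projective plane, the multiplicities `m` and
the base locus `X` form a `4`-multinet (of degree `d`) which is not local. Then the multiplicities
are constant, `d` is three times their common value (after division by it all multiplicities are
`1` and the multinet is a `(4, 3)`-multinet), and a projective transformation carries the four
classes onto the four triangles of the Hesse pencil `x ^ 3 + y ^ 3 + z ^ 3 - 3 t x y z`, and the
base locus onto its nine base points, the inflection points of `x ^ 3 + y ^ 3 + z ^ 3 = 0`.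
This is the positive answer to Q1. All definitions are in `Pool.Agent.H138.Net.Defs`.

Idea of the proof (the metric part is the library development `H284_net`, which no earlier hand-in
used). If the lines do not all pass through one point, a stability argument gives a Hermitian
metric for which the unit normal vectors `u` of the lines are in isotropic position,
`∑ m u u^* = (4 d / 3) 1`. Comparing the squares of the Hilbert-Schmidt norms over the four classes
and over the base points gives an equality case: every class is isotropic, and at every base point
there is one line of every class. Hence the multinet is a net; comparing overlaps, lines of
different classes have overlap `1/3`, and lines of one class are orthogonal. So the classes are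
four mutually unbiased bases of `ℂ ^ 3`, and these are unique. If all lines pass through one point,
then the connectivity of the classes makes the multinet local.
-/

set_option autoImplicit false

open Pool.Agent.H138.Net

namespace Pool.Agent.Results.MP_51574c_co.HesseUnique

/-- **Every non-local `4`-multinet is the Hesse `(4, 3)`-multinet**, up to a common factor of the
multiplicities and a projective transformation. -/
theorem result (A : Fin 4 → Finset P2) (m : P2 → ℕ) (X : Set P2) (d : ℕ)
    (h : IsMultinet 4 A m X d) (hloc : ¬ IsLocal A) :
    (∃ μ, 0 < μ ∧ d = 3 * μ ∧ ∀ i, ∀ ℓ ∈ A i, m ℓ = μ) ∧ IsHesse A X :=
  Main.main A m X d ⟨h.nonempty, h.disjoint, h.pos, h.baseSub, h.degree, h.cross, h.balance,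
    h.connected⟩ hloc

end Pool.Agent.Results.MP_51574c_co.HesseUnique
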